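import Pool.Agent.H238.PH.Spec

/-!
# Project PH, task L: a field with a `C¹` polar profile is `C¹` away from the origin
(helper553, for helper238)
-/

set_option autoImplicit false

namespace Pool.Agent.H553.PH.L

open MeasureTheory Set Filter Topology
open scoped ContDiff RealInnerProductSpace ComplexConjugate
open Pool.Agent.H238.PH

/-- the identification of the plane with the complex numbers -/
noncomputable def cx : RE 2 →L[ℝ] ℂ :=
  Complex.ofRealCLM.comp (EuclideanSpace.proj (0 : Fin 2)) +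
    Complex.I • Complex.ofRealCLM.comp (EuclideanSpace.proj (1 : Fin 2))

theorem cx_apply (x : RE 2) : cx x = (x 0 : ℂ) + Complex.I * (x 1 : ℂ) := by
  simp [cx]

theorem cx_re (x : RE 2) : (cx x).re = x 0 := by
  rw [cx_apply]; simp

theorem cx_im (x : RE 2) : (cx x).im = x 1 := by
  rw [cx_apply]; simp

theorem norm_cx (x : RE 2) : ‖cx x‖ = ‖x‖ := by
  rw [EuclideanSpace.norm_eq, Fin.sum_univ_two, Complex.norm_def, Complex.normSq_apply, cx_re,
    cx_im, Real.norm_eq_abs, Real.norm_eq_abs, sq_abs, sq_abs, sq, sq]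

/-- the polar angle near `x₀` -/
noncomputable def tau (x₀ x : RE 2) : ℝ :=
  Complex.arg (cx x₀) + (Complex.log (cx x / cx x₀)).im

theorem polar {x₀ x : RE 2} (h0 : x₀ ≠ 0) : x = ‖x‖ • ec (tau x₀ x) := by
  have hz0 : cx x₀ ≠ 0 := by
    rw [← norm_pos_iff, norm_cx, norm_pos_iff]; exact h0
  have h1 : (‖x‖ : ℂ) * Complex.exp ((tau x₀ x : ℝ) * Complex.I) = cx x := by
    have h2 := Complex.norm_mul_exp_arg_mul_I (cx x₀)
    have h3 := Complex.norm_mul_exp_arg_mul_I (cx x / cx x₀)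
    have h4 : ((tau x₀ x : ℝ) : ℂ) * Complex.I = (Complex.arg (cx x₀) : ℂ) * Complex.I +
        (Complex.arg (cx x / cx x₀) : ℂ) * Complex.I := by
      unfold tau
      rw [Complex.log_im]
      push_cast
      ring
    have h5 : (‖x‖ : ℂ) = (‖cx x₀‖ : ℂ) * (‖cx x / cx x₀‖ : ℂ) := by
      rw [← Complex.ofReal_mul, ← norm_mul, mul_div_cancel₀ _ hz0, norm_cx]
    rw [h4, Complex.exp_add, h5]
    calc (‖cx x₀‖ : ℂ) * (‖cx x / cx x₀‖ : ℂ) * (Complex.exp ((Complex.arg (cx x₀) : ℂ) *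
          Complex.I) * Complex.exp ((Complex.arg (cx x / cx x₀) : ℂ) * Complex.I))
        = ((‖cx x₀‖ : ℂ) * Complex.exp ((Complex.arg (cx x₀) : ℂ) * Complex.I)) *
          ((‖cx x / cx x₀‖ : ℂ) * Complex.exp ((Complex.arg (cx x / cx x₀) : ℂ) *
            Complex.I)) := by ring
      _ = cx x := by rw [h2, h3, mul_div_cancel₀ _ hz0]
  have hre : ‖x‖ * Real.cos (tau x₀ x) = x 0 := by
    have h2 := congrArg Complex.re h1
    rw [cx_re, Complex.re_ofReal_mul, Complex.exp_ofReal_mul_I_re] at h2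
    exact h2
  have him : ‖x‖ * Real.sin (tau x₀ x) = x 1 := by
    have h2 := congrArg Complex.im h1
    rw [cx_im, Complex.im_ofReal_mul, Complex.exp_ofReal_mul_I_im] at h2
    exact h2
  ext i
  fin_cases i
  · simp [ec, hre]
  · simp [ec, him]

theorem contDiffAt_tau {x₀ : RE 2} (h0 : x₀ ≠ 0) : ContDiffAt ℝ 1 (tau x₀) x₀ := by
  have hz0 : cx x₀ ≠ 0 := by
    rw [← norm_pos_iff, norm_cx, norm_pos_iff]; exact h0
  have h1 : ContDiffAt ℝ 1 (fun x => cx x / cx x₀) x₀ :=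
    cx.contDiff.contDiffAt.div_const _
  have h2 : ContDiffAt ℝ 1 Complex.log (cx x₀ / cx x₀) := by
    have h3 : ContDiffAt ℂ 1 Complex.log (cx x₀ / cx x₀) :=
      Complex.contDiffAt_log (by rw [div_self hz0]; exact Complex.one_mem_slitPlane)
    exact h3.restrict_scalars ℝ
  have h3 : ContDiffAt ℝ 1 (fun x => Complex.log (cx x / cx x₀)) x₀ :=
    ContDiffAt.comp (f := fun x => cx x / cx x₀) x₀ h2 h1
  have h4 : ContDiffAt ℝ 1 (fun x => (Complex.log (cx x / cx x₀)).im) x₀ :=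
    Complex.imCLM.contDiff.contDiffAt.comp x₀ h3
  exact contDiffAt_const.add h4

/-- **Task L.** -/
theorem t_L : S_L := by
  intro n α G g hg hG x₀ h0
  have h1 : ContDiffAt ℝ 1 (fun x : RE 2 => ‖x‖ ^ α • g (tau x₀ x)) x₀ := by
    have h2 : ContDiffAt ℝ 1 (fun x : RE 2 => ‖x‖ ^ α) x₀ :=
      (contDiffAt_norm ℝ h0).rpow_const_of_ne (norm_ne_zero_iff.2 h0)
    have h3 : ContDiffAt ℝ 1 (fun x : RE 2 => g (tau x₀ x)) x₀ :=
      hg.contDiffAt.comp x₀ (contDiffAt_tau h0)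
    exact h2.smul h3
  refine h1.congr_of_eventuallyEq ?_
  filter_upwards [isOpen_ne.mem_nhds h0] with x hx
  have h2 := hG ‖x‖ (tau x₀ x) (norm_pos_iff.2 hx)
  rwa [← polar h0] at h2

end Pool.Agent.H553.PH.L
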