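import Mathlib

/-!
# The fourth moment of `n / φ(n)` (task PH4 of helper568)
-/

set_option autoImplicit false

namespace Pool.Agent.H553.PH

open Finset

/-- `g(p) = (1 - 1/p)⁻⁴ - 1` -/
noncomputable def g (p : ℕ) : ℝ := ((1 - (p : ℝ)⁻¹)⁻¹) ^ 4 - 1

theorem g_bd (p : ℕ) (hp : 2 ≤ p) : 0 ≤ g p ∧ g p ≤ 30 / p := by
  have hx : (2 : ℝ) ≤ p := by exact_mod_cast hp
  have hx0 : (0 : ℝ) < p := by linarith
  have hx1 : (0 : ℝ) < (p : ℝ) - 1 := by linarith
  obtain ⟨y, hy⟩ : ∃ y : ℝ, y = 1 / ((p : ℝ) - 1) := ⟨_, rfl⟩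
  have hy0 : 0 < y := by rw [hy]; positivity
  have hy1 : y ≤ 1 := by
    rw [hy, div_le_one hx1]
    linarith
  have hy2 : y ≤ 2 / p := by
    rw [hy, div_le_div_iff₀ hx1 hx0]
    linarith
  have e : (1 - (p : ℝ)⁻¹)⁻¹ = 1 + y := by
    rw [hy]
    have h1 : (1 - (p : ℝ)⁻¹) = ((p : ℝ) - 1) / p := by
      field_simp
    rw [h1, inv_div]
    field_simp
    ring
  have hg : g p = 4 * y + 6 * y ^ 2 + 4 * y ^ 3 + y ^ 4 := by
    unfold g
    rw [e]
    ring
  have h2 : y ^ 2 ≤ y := by nlinarith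
  have h3 : y ^ 3 ≤ y := by
    calc y ^ 3 = y * y ^ 2 := by ring
      _ ≤ y * 1 := mul_le_mul_of_nonneg_left (by nlinarith) hy0.le
      _ = y := mul_one y
  have h4 : y ^ 4 ≤ y := by
    calc y ^ 4 = y * y ^ 3 := by ring
      _ ≤ y * 1 := mul_le_mul_of_nonneg_left (by linarith) hy0.le
      _ = y := mul_one y
  refine ⟨by rw [hg]; positivity, ?_⟩
  rw [hg]
  calc 4 * y + 6 * y ^ 2 + 4 * y ^ 3 + y ^ 4 ≤ 15 * y := by linarith
    _ ≤ 15 * (2 / p) := by linarith
    _ = 30 / p := by ring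

theorem ratio_eq (u : ℕ) (hu : 1 ≤ u) :
    ((u : ℝ) / (Nat.totient u : ℝ)) ^ 4 = ∏ p ∈ u.primeFactors, (1 + g p) := by
  have h1 : (Nat.totient u : ℝ) = u * ∏ p ∈ u.primeFactors, (1 - (p : ℝ)⁻¹) := by
    have h := Nat.totient_eq_mul_prod_factors u
    have h2 := congrArg (fun q : ℚ => (q : ℝ)) h
    push_cast at h2
    exact h2
  have hu0 : (u : ℝ) ≠ 0 := by
    have : (1 : ℝ) ≤ u := by exact_mod_cast hu
    linarith
  rw [h1]
  have h3 : (u : ℝ) / (u * ∏ p ∈ u.primeFactors, (1 - (p : ℝ)⁻¹)) =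
      ∏ p ∈ u.primeFactors, (1 - (p : ℝ)⁻¹)⁻¹ := by
    rw [Finset.prod_inv_distrib, div_mul_eq_div_div, div_self hu0, one_div]
  rw [h3, ← Finset.prod_pow]
  refine Finset.prod_congr rfl fun p _ => ?_
  unfold g
  ring

theorem count_le (X : ℕ) (s : Finset ℕ) (hs : ∀ p ∈ s, p.Prime) :
    (((Icc 1 X).filter (fun u : ℕ => s ⊆ u.primeFactors)).card : ℝ) ≤ X / ∏ p ∈ s, (p : ℝ) := by
  have hpos : 0 < ∏ p ∈ s, p := Finset.prod_pos fun p hp => (hs p hp).pos
  have h1 : ((Icc 1 X).filter (fun u : ℕ => s ⊆ u.primeFactors)).card ≤ X / ∏ p ∈ s, p := by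
    have h2 : (Icc 1 X).filter (fun u : ℕ => s ⊆ u.primeFactors) ⊆
        (Icc 1 (X / ∏ p ∈ s, p)).image (fun k => (∏ p ∈ s, p) * k) := by
      intro u hu
      rw [mem_filter, mem_Icc] at hu
      have hd : (∏ p ∈ s, p) ∣ u := by
        refine Finset.prod_primes_dvd u (fun p hp => (hs p hp).prime) fun p hp => ?_
        exact Nat.dvd_of_mem_primeFactors (hu.2 hp)
      obtain ⟨k, hk⟩ := hd
      rw [mem_image]
      refine ⟨k, ?_, hk.symm⟩
      rw [mem_Icc]
      constructor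
      · rcases Nat.eq_zero_or_pos k with h | h
        · rw [h, mul_zero] at hk
          omega
        · exact h
      · rw [Nat.le_div_iff_mul_le hpos, mul_comm]
        omega
    calc _ ≤ ((Icc 1 (X / ∏ p ∈ s, p)).image (fun k => (∏ p ∈ s, p) * k)).card :=
          card_le_card h2
      _ ≤ (Icc 1 (X / ∏ p ∈ s, p)).card := card_image_le
      _ = X / ∏ p ∈ s, p := by rw [Nat.card_Icc, Nat.add_sub_cancel]
  calc (((Icc 1 X).filter (fun u : ℕ => s ⊆ u.primeFactors)).card : ℝ)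
      ≤ ((X / ∏ p ∈ s, p : ℕ) : ℝ) := by exact_mod_cast h1
    _ ≤ (X : ℝ) / ((∏ p ∈ s, p : ℕ) : ℝ) := Nat.cast_div_le
    _ = X / ∏ p ∈ s, (p : ℝ) := by push_cast; rfl

theorem ph4_core (X : ℕ) :
    ∑ u ∈ Icc 1 X, ((u : ℝ) / (Nat.totient u : ℝ)) ^ 4 ≤ Real.exp 60 * X := by
  set P : Finset ℕ := (Icc 1 X).filter Nat.Prime with hP
  have hPp : ∀ p ∈ P, p.Prime := fun p hp => (mem_filter.1 hp).2
  have step1 : ∀ u ∈ Icc 1 X, ((u : ℝ) / (Nat.totient u : ℝ)) ^ 4 ≤
      ∑ s ∈ P.powerset, if s ⊆ u.primeFactors then ∏ p ∈ s, g p else 0 := by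
    intro u hu
    rw [mem_Icc] at hu
    rw [ratio_eq u hu.1, Finset.prod_one_add, ← Finset.sum_filter]
    refine Finset.sum_le_sum_of_subset_of_nonneg ?_ ?_
    · intro s hs
      rw [mem_powerset] at hs
      rw [mem_filter, mem_powerset]
      refine ⟨fun p hp => ?_, hs⟩
      have hp' := hs hp
      rw [hP, mem_filter, mem_Icc]
      have hpp := Nat.prime_of_mem_primeFactors hp'
      exact ⟨⟨hpp.one_lt.le, (Nat.le_of_mem_primeFactors hp').trans hu.2⟩, hpp⟩
    · intro s hs _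
      rw [mem_filter, mem_powerset] at hs
      exact Finset.prod_nonneg fun p hp => (g_bd p (hPp p (hs.1 hp)).two_le).1
  calc ∑ u ∈ Icc 1 X, ((u : ℝ) / (Nat.totient u : ℝ)) ^ 4
      ≤ ∑ u ∈ Icc 1 X, ∑ s ∈ P.powerset, (if s ⊆ u.primeFactors then ∏ p ∈ s, g p else 0) :=
        Finset.sum_le_sum step1
    _ = ∑ s ∈ P.powerset, ∑ u ∈ Icc 1 X, (if s ⊆ u.primeFactors then ∏ p ∈ s, g p else 0) :=
        Finset.sum_comm
    _ ≤ ∑ s ∈ P.powerset, X * ∏ p ∈ s, (g p / p) := by
        refine Finset.sum_le_sum fun s hs => ?_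
        rw [mem_powerset] at hs
        rw [← Finset.sum_filter, Finset.sum_const, nsmul_eq_mul, Finset.prod_div_distrib]
        have h1 := count_le X s fun p hp => hPp p (hs hp)
        have h2 : 0 ≤ ∏ p ∈ s, g p :=
          Finset.prod_nonneg fun p hp => (g_bd p (hPp p (hs hp)).two_le).1
        calc _ ≤ (X / ∏ p ∈ s, (p : ℝ)) * ∏ p ∈ s, g p := mul_le_mul_of_nonneg_right h1 h2
          _ = _ := by ring
    _ = X * ∏ p ∈ P, (1 + g p / p) := by
        rw [← Finset.mul_sum, Finset.prod_one_add]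
    _ ≤ X * Real.exp 60 := by
        refine mul_le_mul_of_nonneg_left ?_ (Nat.cast_nonneg X)
        calc ∏ p ∈ P, (1 + g p / p) ≤ ∏ p ∈ P, Real.exp (g p / p) := by
              refine Finset.prod_le_prod (fun p hp => ?_) fun p hp => ?_
              · have := (g_bd p (hPp p hp).two_le).1
                positivity
              · have := Real.add_one_le_exp (g p / p)
                linarith
          _ = Real.exp (∑ p ∈ P, g p / p) := (Real.exp_sum _ _).symm
          _ ≤ Real.exp 60 := by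
              apply Real.exp_le_exp.2
              have h1 : ∀ p ∈ P, g p / p ≤ 30 * ((p : ℝ) ^ 2)⁻¹ := by
                intro p hp
                have hp2 := (hPp p hp).two_le
                have hp0 : (0 : ℝ) < p := by
                  have : (2 : ℝ) ≤ p := by exact_mod_cast hp2
                  linarith
                calc g p / p ≤ (30 / p) / p :=
                      div_le_div_of_nonneg_right (g_bd p hp2).2 hp0.le
                  _ = 30 * ((p : ℝ) ^ 2)⁻¹ := by field_simp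
              calc ∑ p ∈ P, g p / p ≤ ∑ p ∈ P, 30 * ((p : ℝ) ^ 2)⁻¹ := Finset.sum_le_sum h1
                _ ≤ ∑ p ∈ Ioo 0 (X + 1), 30 * ((p : ℝ) ^ 2)⁻¹ := by
                    refine Finset.sum_le_sum_of_subset_of_nonneg ?_ fun p _ _ => by positivity
                    intro p hp
                    rw [hP, mem_filter, mem_Icc] at hp
                    rw [mem_Ioo]
                    omega
                _ = 30 * ∑ p ∈ Ioo 0 (X + 1), ((p : ℝ) ^ 2)⁻¹ := by rw [Finset.mul_sum]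
                _ ≤ 30 * 2 := by
                    refine mul_le_mul_of_nonneg_left ?_ (by norm_num)
                    have := sum_Ioo_inv_sq_le (α := ℝ) 0 (X + 1)
                    norm_num at this
                    exact_mod_cast this
                _ = 60 := by norm_num
    _ = Real.exp 60 * X := mul_comm _ _

end Pool.Agent.H553.PH
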